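import Pool.Agent.Helper10.SP.GoalsE
import Pool.Agent.Helper68.Lin.CAU

open Complex Metric Set Filter Topology

namespace Pool.Agent.Helper16.SP

open Pool.Agent.Helper95.Lin Pool.Agent.Helper10.SP

theorem addq (hNML : S_NML) (hCMPQ : S_CMPQ) : S_ADDQ := by
  intro b N c R P Φ C hA i ε hε
  have hC : 1 ≤ C := hA.Cge
  have hCpos : 0 < C := by linarith
  obtain ⟨ε₀, hε₀, K, hK⟩ := hCMPQ c R P Φ C hA i
  obtain ⟨K', hK'sub, -, -, L, hL, hcau⟩ := Pool.Agent.Helper68.Lin.CAU (n := b) (m := 1)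
    (ball (c i) 4) isOpen_ball (closedBall (c i) (7 / 2))
    (closedBall_subset_ball (by norm_num)) (isCompact_closedBall _ _)
  obtain ⟨η₁, hη₁, h₁⟩ := hNML c R P Φ C hA i 3 (by norm_num) ε hε
  -- `M = max K 0`
  set M : ℝ := max K 0 with hM
  have hM0 : 0 ≤ M := le_max_right _ _
  set η : ℝ := min (min (min ε₀ η₁) (1 / 4)) (ε / (M * (L + 2) + 1)) with hη
  have hden : 0 < M * (L + 2) + 1 := by positivity
  have hηpos : 0 < η := lt_min (lt_min (lt_min hε₀ hη₁) (by norm_num)) (by positivity)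
  have hη_ε₀ : η ≤ ε₀ := (min_le_left _ _).trans ((min_le_left _ _).trans (min_le_left _ _))
  have hη_η₁ : η ≤ η₁ := (min_le_left _ _).trans ((min_le_left _ _).trans (min_le_right _ _))
  have hη_4 : η ≤ 1 / 4 := (min_le_left _ _).trans (min_le_right _ _)
  have hη_ε : η * (M * (L + 2)) ≤ ε := by
    have h1 : η ≤ ε / (M * (L + 2) + 1) := min_le_right _ _
    rw [le_div_iff₀ hden] at h1
    nlinarith
  refine ⟨η, hηpos, ?_⟩
  intro t t' ht ht'
  have hmono : ∀ {ε' : ℝ} {t : Tri b}, NrA c P i 3 η t → η ≤ ε' → NrA c P i 3 ε' t := by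
    intro ε' t h hε
    exact ⟨h.1, fun z hz => ⟨(h.2 z hz).1.trans hε, (h.2 z hz).2.trans hε⟩⟩
  obtain ⟨hmapt, u, hu, hueq⟩ := (h₁ t' (hmono ht' hη_η₁)).1 t (hmono ht hη_η₁)
  refine ⟨u, hu, fun x hx => ?_⟩
  have hx4 : x ∈ ball (c i) 4 := ball_subset_ball (by norm_num) hx
  have hane : ∀ s, Big c P i s → ∀ z ∈ ball (c i) 4, s.a z ≠ 0 := by
    intro s hs z hz h
    have := (hA.abd i s hs z hz).2
    rw [h, norm_zero] at this
    linarith
  -- bound of `t'.q`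
  set Q : ℝ := M * (1 + ‖t'.q (c i)‖) with hQ
  have hQ0 : 0 ≤ Q := by positivity
  have hqb : ∀ z ∈ ball (c i) 4, ‖t'.q z‖ ≤ Q := by
    intro z hz
    have h1 := (hK t' t' (hmono ht' hη_ε₀) (hmono ht' hη_ε₀) z hz).2 (c i)
      (mem_ball_self (by norm_num))
    refine h1.trans ?_
    exact mul_le_mul_of_nonneg_right (le_max_left _ _) (by positivity)
  have hhol := hA.holo _ t' ht'.1.1
  have hqd : DifferentiableOn ℂ (fun z => t'.q z) (ball (c i) 4) := by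
    have : (fun z => t'.q z) = fun z => t'.β z * (t'.a z)⁻¹ := by
      funext z
      rw [Tri.q, div_eq_mul_inv]
    rw [this]
    exact hhol.2.2.2.2.1.mul (hhol.2.2.2.1.inv (hane t' ht'.1))
  have hqd1 : DifferentiableOn ℂ (fun z => (fun _ : Fin 1 => t'.q z)) (ball (c i) 4) :=
    differentiableOn_pi.2 fun _ => hqd
  have hbd : ∀ z ∈ K', ‖(fun _ : Fin 1 => t'.q z)‖ ≤ Q := by
    intro z hz
    rw [pi_norm_le_iff_of_nonneg hQ0]
    intro _
    exact hqb z (hK'sub hz)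
  have hlip := (hcau _ hqd1 Q hbd).2
  have hx35 : x ∈ closedBall (c i) (7 / 2) := by
    rw [mem_ball] at hx
    rw [mem_closedBall]
    linarith
  have hgx : ‖t.g x - x‖ ≤ η := (ht.2 x hx).1
  have hgx35 : t.g x ∈ closedBall (c i) (7 / 2) := by
    rw [mem_ball, dist_eq_norm] at hx
    rw [mem_closedBall, dist_eq_norm]
    have h3 : t.g x - c i = (t.g x - x) + (x - c i) := by abel
    rw [h3]
    have := norm_add_le (t.g x - x) (x - c i)
    linarith
  have hgx4 : t.g x ∈ ball (c i) 4 := closedBall_subset_ball (by norm_num) hgx35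
  have hl : ‖t'.q (t.g x) - t'.q x‖ ≤ L * Q * η := by
    have h1 := hlip (t.g x) hgx35 x hx35
    have h2 : ‖t'.q (t.g x) - t'.q x‖ ≤
        ‖(fun _ : Fin 1 => t'.q (t.g x)) - (fun _ : Fin 1 => t'.q x)‖ :=
      norm_le_pi_norm ((fun _ : Fin 1 => t'.q (t.g x)) - (fun _ : Fin 1 => t'.q x)) 0
    refine h2.trans (h1.trans ?_)
    gcongr
  obtain ⟨-, e2, e3⟩ := hueq x hx
  simp only [Tri.comp] at e2 e3
  have hta := hane t ht.1 x hx4
  have hta' := hane t' ht'.1 _ hgx4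
  have hid : u.q x - t.q x - t'.q x =
      (t'.q (t.g x) - t'.q x) + t'.q (t.g x) * ((1 - t.a x) / t.a x) := by
    simp only [Tri.q, e2, e3]
    field_simp
    ring
  -- `‖(1 - a)/a‖ ≤ 2 η`
  have hda : ‖(1 - t.a x) / t.a x‖ ≤ 2 * η := by
    have h1 : ‖t.a x - 1‖ ≤ η := (ht.2 x hx).2
    have h2 : (3 / 4 : ℝ) ≤ ‖t.a x‖ := by
      have h3 : (1 : ℝ) = ‖t.a x - (t.a x - 1)‖ := by simp
      have h4 := norm_sub_le (t.a x) (t.a x - 1)
      linarith
    have h5 : ‖1 - t.a x‖ ≤ η := by rw [norm_sub_rev]; exact h1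
    rw [norm_div, div_le_iff₀ (by linarith)]
    nlinarith
  rw [hid]
  calc ‖(t'.q (t.g x) - t'.q x) + t'.q (t.g x) * ((1 - t.a x) / t.a x)‖
      ≤ ‖t'.q (t.g x) - t'.q x‖ + ‖t'.q (t.g x) * ((1 - t.a x) / t.a x)‖ := norm_add_le _ _
    _ ≤ L * Q * η + Q * (2 * η) := by
      rw [norm_mul]
      exact add_le_add hl (mul_le_mul (hqb _ hgx4) hda (norm_nonneg _) hQ0)
    _ = η * (M * (L + 2)) * (1 + ‖t'.q (c i)‖) := by rw [hQ]; ring
    _ ≤ ε * (1 + ‖t'.q (c i)‖) := mul_le_mul_of_nonneg_right hη_ε (by positivity)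

end Pool.Agent.Helper16.SP
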