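import Pool.Agent.Helper10.SP.GoalsE

open Complex Metric Set Filter Topology

namespace Pool.Agent.Helper16.SP

open Pool.Agent.Helper95.Lin Pool.Agent.Helper10.SP

theorem cmpq (hNML : S_NML) : S_CMPQ := by
  intro b N c R P Φ C hA i
  have hC : 1 ≤ C := hA.Cge
  obtain ⟨η₁, hη₁, h₁⟩ := hNML c R P Φ C hA i (7 / 2) (by norm_num) (1 / 4) (by norm_num)
  obtain ⟨η₂, hη₂, h₂⟩ := hNML c R P Φ C hA i (7 / 2) (by norm_num) (min η₁ (1 / 4))
    (lt_min hη₁ (by norm_num))
  refine ⟨min (min η₁ η₂) (1 / 4), lt_min (lt_min hη₁ hη₂) (by norm_num), C ^ 3, ?_⟩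
  have hmono : ∀ {ρ ρ' ε ε' : ℝ} {t : Tri b}, NrA c P i ρ ε t → ρ' ≤ ρ → ε ≤ ε' →
      NrA c P i ρ' ε' t := by
    intro ρ ρ' ε ε' t h hρ hε
    exact ⟨h.1, fun z hz => ⟨(h.2 z (ball_subset_ball hρ hz)).1.trans hε,
      (h.2 z (ball_subset_ball hρ hz)).2.trans hε⟩⟩
  have hCpos : 0 < C := by linarith
  -- estimate of `β / a` and back
  have key1 : ∀ t, Big c P i t → ∀ x ∈ ball (c i) 4, ‖t.q x‖ ≤ C * ‖t.β x‖ := by
    intro t ht x hx
    have ha := (hA.abd i t ht x hx).2
    have hapos : 0 < ‖t.a x‖ := by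
      by_contra h
      push Not at h
      nlinarith
    rw [Tri.q, norm_div, div_le_iff₀ hapos]
    have := norm_nonneg (t.β x)
    nlinarith
  have key2 : ∀ t, Big c P i t → ∀ x ∈ ball (c i) 4, ‖t.β x‖ ≤ C * ‖t.q x‖ := by
    intro t ht x hx
    have ha := hA.abd i t ht x hx
    have hne : t.a x ≠ 0 := by
      intro h
      rw [h, norm_zero] at ha
      linarith [ha.2]
    have : t.β x = t.a x * t.q x := by
      rw [Tri.q, mul_div_cancel₀ _ hne]
    rw [this, norm_mul]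
    exact mul_le_mul_of_nonneg_right ha.1 (norm_nonneg _)
  intro t t' ht ht' x hx
  constructor
  · intro hx3
    obtain ⟨hmapt, u, hu, -, hut, -⟩ := (h₂ t (hmono ht le_rfl
      ((min_le_left _ _).trans (min_le_right _ _)))).2
    obtain ⟨-, d, hd, hdeq⟩ := (h₁ t' (hmono ht' le_rfl
      ((min_le_left _ _).trans (min_le_left _ _)))).1 u
      (hmono hu (by norm_num) (min_le_left _ _))
    have hc3 : c i ∈ ball (c i) 3 := mem_ball_self (by norm_num)
    have hc4 : c i ∈ ball (c i) 4 := mem_ball_self (by norm_num)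
    have hmove : ∀ z ∈ ball (c i) 3, t.g z ∈ ball (c i) (7 / 2) := by
      intro z hz
      have h1 := (ht.2 z hz).1
      have h2 : (min (min η₁ η₂) (1 / 4) : ℝ) ≤ 1 / 4 := min_le_right _ _
      rw [mem_ball, dist_eq_norm] at hz ⊢
      have h3 : t.g z - c i = (t.g z - z) + (z - c i) := by abel
      rw [h3]
      have := norm_add_le (t.g z - z) (z - c i)
      linarith
    have hid : ∀ z ∈ ball (c i) 3, t'.β z = d.a (t.g z) * t.β z + d.β (t.g z) ∧
        t'.a z = d.a (t.g z) * t.a z := by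
      intro z hz
      obtain ⟨e1, e2, e3⟩ := hut z (ball_subset_ball (by norm_num) hz)
      obtain ⟨f1, f2, f3⟩ := hdeq (t.g z) (hmove z hz)
      simp only [Tri.comp, Tri.one, id] at e1 e2 e3 f1 f2 f3
      rw [e1] at f2 f3
      constructor
      · rw [f2, f3]
        linear_combination (-1 : ℂ) * t'.a z * e3
      · rw [f2]
        linear_combination (-1 : ℂ) * t'.a z * e2
    have hdiff : ∀ z ∈ ball (c i) 3, t'.q z - t.q z = d.β (t.g z) / t'.a z := by
      intro z hz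
      obtain ⟨h1, h2⟩ := hid z hz
      have hz4 := ball_subset_ball (show (3 : ℝ) ≤ 4 by norm_num) hz
      have hta : t.a z ≠ 0 := by
        intro h
        have := (hA.abd i t ht.1 z hz4).2
        rw [h, norm_zero] at this
        linarith
      have hda : d.a (t.g z) ≠ 0 := by
        intro h
        have h4 := (hA.abd i t' ht'.1 z hz4).2
        rw [h2, h, zero_mul, norm_zero] at h4
        linarith
      rw [Tri.q, Tri.q, h1, h2]
      field_simp
      ring
    have hd4 : ∀ z ∈ ball (c i) 3, t.g z ∈ ball (c i) 4 := fun z hz =>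
      ball_subset_ball (by norm_num) (hmove z hz)
    -- estimate at `c i`
    have e1 : ‖d.β (t.g (c i))‖ ≤ C * ‖t'.q (c i) - t.q (c i)‖ := by
      rw [hdiff (c i) hc3, norm_div]
      have ha := hA.abd i t' ht'.1 (c i) hc4
      have hapos : 0 < ‖t'.a (c i)‖ := by
        by_contra h
        push Not at h
        nlinarith [ha.2]
      have hb := norm_nonneg (d.β (t.g (c i)))
      have h5 : ‖d.β (t.g (c i))‖ = ‖t'.a (c i)‖ * (‖d.β (t.g (c i))‖ / ‖t'.a (c i)‖) := by
        field_simp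
      calc ‖d.β (t.g (c i))‖ = ‖t'.a (c i)‖ * (‖d.β (t.g (c i))‖ / ‖t'.a (c i)‖) := h5
        _ ≤ C * (‖d.β (t.g (c i))‖ / ‖t'.a (c i)‖) :=
          mul_le_mul_of_nonneg_right ha.1 (by positivity)
    have e2 := hA.bgr i d hd.1 (t.g x) (hd4 x hx3) (t.g (c i)) (hd4 _ hc3)
    have e3 : ‖t'.q x - t.q x‖ ≤ C * ‖d.β (t.g x)‖ := by
      rw [hdiff x hx3, norm_div]
      have ha := hA.abd i t' ht'.1 x hx
      have hapos : 0 < ‖t'.a x‖ := by
        by_contra h
        push Not at h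
        nlinarith [ha.2]
      rw [div_le_iff₀ hapos]
      have := norm_nonneg (d.β (t.g x))
      nlinarith [ha.2]
    set D := ‖t'.q (c i) - t.q (c i)‖
    have hD : 0 ≤ D := norm_nonneg _
    calc ‖t'.q x - t.q x‖ ≤ C * ‖d.β (t.g x)‖ := e3
      _ ≤ C * (C * (1 + ‖d.β (t.g (c i))‖)) := mul_le_mul_of_nonneg_left e2 hCpos.le
      _ ≤ C * (C * (1 + C * D)) := by gcongr
      _ ≤ C ^ 3 * (1 + D) := by
        have : 0 ≤ C * C * (C - 1) := by nlinarith [mul_pos hCpos hCpos]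
        nlinarith
  · intro y hy
    have e1 := key1 t ht.1 x hx
    have e2 := hA.bgr i t ht.1 x hx y hy
    have e3 := key2 t ht.1 y hy
    set D := ‖t.q y‖
    have hD : 0 ≤ D := norm_nonneg _
    calc ‖t.q x‖ ≤ C * ‖t.β x‖ := e1
      _ ≤ C * (C * (1 + ‖t.β y‖)) := mul_le_mul_of_nonneg_left e2 hCpos.le
      _ ≤ C * (C * (1 + C * D)) := by gcongr
      _ ≤ C ^ 3 * (1 + D) := by
        have : 0 ≤ C * C * (C - 1) := by nlinarith [mul_pos hCpos hCpos]
        nlinarith

end Pool.Agent.Helper16.SP
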