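import Pool.Agent.Helper45.SP.GoalsG
import Pool.Agent.Helper19.Lin.IDT

open Complex Metric Set Filter Topology

namespace Pool.Agent.Helper16.SP

open Pool.Agent.Helper95.Lin Pool.Agent.Helper10.SP Pool.Agent.Helper45.SP

theorem bddAbove_nL {b : ℕ} {z₀ : Cn b} {r : ℝ} (hr : 0 < r) {V : Cn b → Cn b}
    (hV : DifferentiableOn ℂ V (ball z₀ r)) :
    BddAbove ((fun z => ‖V z‖) '' ball z₀ (r / 2)) := by
  have hsub : closedBall z₀ (r / 2) ⊆ ball z₀ r := closedBall_subset_ball (by linarith)
  have hc : ContinuousOn (fun z => ‖V z‖) (closedBall z₀ (r / 2)) :=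
    (hV.continuousOn.mono hsub).norm
  have hK : IsCompact (closedBall z₀ (r / 2)) := isCompact_closedBall _ _
  exact (hK.bddAbove_image hc).mono (image_mono ball_subset_closedBall)

theorem LNRM : S_LNRM := by
  intro b z₀ r A hr V W hV hW
  have hne : (ball z₀ (r / 2)).Nonempty := ⟨z₀, mem_ball_self (by linarith)⟩
  have bV := bddAbove_nL hr hV.1
  have bW := bddAbove_nL hr hW.1
  have hle : ∀ {U : Cn b → Cn b}, BddAbove ((fun z => ‖U z‖) '' ball z₀ (r / 2)) →
      ∀ z ∈ ball z₀ (r / 2), ‖U z‖ ≤ nL z₀ r U := fun hU z hz =>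
    le_csSup hU (mem_image_of_mem _ hz)
  have hub : ∀ {U : Cn b → Cn b} (M : ℝ),
      (∀ z ∈ ball z₀ (r / 2), ‖U z‖ ≤ M) → nL z₀ r U ≤ M := fun M h =>
    csSup_le (hne.image _) (by rintro _ ⟨z, hz, rfl⟩; exact h z hz)
  have h0 : ∀ {U : Cn b → Cn b}, BddAbove ((fun z => ‖U z‖) '' ball z₀ (r / 2)) →
      0 ≤ nL z₀ r U := fun hU =>
    (norm_nonneg _).trans (hle hU z₀ (mem_ball_self (by linarith)))
  refine ⟨hle bV, fun M _ h => hub M h, h0 bV, ?_, ?_, ?_⟩
  · intro h
    have hz : ∀ z ∈ ball z₀ (r / 2), V z = 0 := by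
      intro z hz
      have := hle bV z hz
      rw [h] at this
      exact norm_le_zero_iff.1 this
    have hev : ∀ᶠ z in 𝓝 z₀, V z = 0 := by
      filter_upwards [ball_mem_nhds z₀ (show 0 < r / 2 by linarith)] with z hz'
      exact hz z hz'
    have hall := Helper19.Lin.idt (ball z₀ r) isOpen_ball
      (convex_ball z₀ r).isPreconnected V hV.1 z₀ (mem_ball_self hr) hev
    funext z
    by_cases hzr : z ∈ ball z₀ r
    · exact hall z hzr
    · exact hV.2.1 z hzr
  · refine hub _ fun z hz => ?_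
    exact (norm_add_le _ _).trans (add_le_add (hle bV z hz) (hle bW z hz))
  · intro c
    by_cases hc : c = 0
    · subst hc
      apply le_antisymm
      · refine hub _ fun z hz => ?_
        simp
      · rw [abs_zero, zero_mul]
        apply h0
        refine ⟨0, ?_⟩
        rintro _ ⟨z, hz, rfl⟩
        simp
    · have hcb : BddAbove ((fun z => ‖(c • V) z‖) '' ball z₀ (r / 2)) := by
        refine ⟨|c| * nL z₀ r V, ?_⟩
        rintro _ ⟨z, hz, rfl⟩
        simp only [Pi.smul_apply, norm_smul, Real.norm_eq_abs]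
        exact mul_le_mul_of_nonneg_left (hle bV z hz) (abs_nonneg _)
      have hcp : 0 < |c| := abs_pos.2 hc
      apply le_antisymm
      · refine hub _ fun z hz => ?_
        simp only [Pi.smul_apply, norm_smul, Real.norm_eq_abs]
        exact mul_le_mul_of_nonneg_left (hle bV z hz) (abs_nonneg _)
      · rw [← le_div_iff₀' hcp]
        refine hub _ fun z hz => ?_
        rw [le_div_iff₀' hcp]
        have := hle hcb z hz
        simpa only [Pi.smul_apply, norm_smul, Real.norm_eq_abs] using this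

end Pool.Agent.Helper16.SP
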